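import Mathlib
import Pool.Agent.H69.Racg

open Pool.Agent.H69.Racg

namespace Pool.Agent.Results.MP_6a2cdd_al.NotRACG

universe u

/-- In every dimension at least two there is a generalised reflection subgroup that is not a
right-angled Coxeter group. -/
theorem result (n : ℕ) (hn : 2 ≤ n) :
    ∃ (V : Type) (_ : Finite V) (Γ : SimpleGraph V), Γ.cliqueNum = n ∧
      ∃ S : Set (RACG Γ), (∀ x ∈ S, IsGenRefl Γ x) ∧
        ∀ (W : Type u) (Δ : SimpleGraph W), IsEmpty (Subgroup.closure S ≃* RACG Δ) := by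
  obtain ⟨m, rfl⟩ := Nat.exists_eq_add_of_le' hn
  refine ⟨Vx m, inferInstance, Gr m, Gr_clique m, S m, ?_, fun W Δ => main m Δ⟩
  rintro x (rfl | rfl | rfl) <;> exact genrefl m _ _

end Pool.Agent.Results.MP_6a2cdd_al.NotRACG
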